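import Pool.Agent.Helper68.QS.St3

/-!
# Project QD, module BCC: natural coordinates after base change
-/

open MeasureTheory Set Filter Topology Complex
open scoped ContDiff ComplexConjugate ENNReal

namespace Pool.Agent.Helper6.QS

open Pool.Agent.Helper68.QS Pool.Agent.Helper68.QC

lemma bcc_f {q : ℂ → ℂ} {U : Set ℂ} (hU : IsOpen U) (hq : DifferentiableOn ℂ q U) (t : ℂ) :
    ContDiffOn ℝ 1 (fun z => q z + t * conj (q z)) U ∧
    ∀ z ∈ U, dz (fun z => q z + t * conj (q z)) z = deriv q z ∧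
      dzb (fun z => q z + t * conj (q z)) z = t * conj (deriv q z) := by
  have h1 : ContDiffOn ℝ 1 q U := by
    have : ContDiffOn ℂ 1 q U := hq.contDiffOn hU
    exact this.restrict_scalars ℝ
  have h2 : ContDiffOn ℝ 1 (fun z => conj (q z)) U :=
    (Complex.conjCLE : ℂ →L[ℝ] ℂ).contDiff.comp_contDiffOn h1
  refine ⟨h1.add (contDiffOn_const.mul h2), fun z hz => ?_⟩
  have hd : DifferentiableAt ℂ q z := hq.differentiableAt (hU.mem_nhds hz)
  have hr : DifferentiableAt ℝ q z := hd.restrictScalars ℝ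
  have hc : DifferentiableAt ℝ (fun z => conj (q z)) z :=
    (h2.differentiableOn (by simp)).differentiableAt (hU.mem_nhds hz)
  have ht : DifferentiableAt ℝ (fun z => t * conj (q z)) z := hc.const_mul t
  refine ⟨?_, ?_⟩
  · rw [dz_add hr ht, dz_const_mul t hc, dz_conj hr, dz_holo hd, dzb_holo hd]; simp
  · rw [dzb_add hr ht, dzb_const_mul t hc, dzb_conj hr, dz_holo hd, dzb_holo hd]; simp

theorem pBCC (hEX : Pool.Agent.Helper68.QC.StEX) (hFAC : Pool.Agent.Helper68.QC.StFAC)
    (hCHR : Pool.Agent.Helper68.QC.StCHR) (hUNW : Pool.Agent.Helper68.QC.StUNW)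
    (hNUL : Pool.Agent.Helper68.QC.StNUL) : Pool.Agent.Helper68.QS.StBCC := by
  intro k κ n a t U q hD ht hA hU hq hn
  obtain ⟨hf1, hf2⟩ := bcc_f hU hq t
  have hk' : max k ‖t‖ < 1 := max_lt hD.lt ht
  have hbel : Bel (max k ‖t‖) (muD κ n t) := by
    refine ⟨hD.belk.meas.add (hD.beln.meas.const_mul t), fun z => ?_⟩
    rcases hD.dis z with h | ⟨h, h'⟩
    · simp only [muD, h, mul_zero, add_zero]
      exact (hD.belk.le z).trans (le_max_left _ _)
    · simp only [muD, h', zero_add, norm_mul, h, mul_one]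
      exact le_max_right _ _
  have hμU : ∀ z ∈ U, muD κ n t z = t * n z := fun z hz => by
    simp only [muD, (hn z hz).2.1, zero_add]
  have hsol : Sol (muD κ n t) U (fun z => q z + t * conj (q z)) := by
    refine ⟨_, _, wd_smoothOn hU hf1, ?_⟩
    filter_upwards [ae_restrict_mem hU.measurableSet] with z hz
    rw [(hf2 z hz).1, (hf2 z hz).2, hμU z hz, (hn z hz).2.2, mul_assoc,
      div_mul_cancel₀ _ (hn z hz).1]
  have hhol := hFAC _ hk' _ hbel U _ hU hsol
  refine ⟨hhol, ?_⟩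
  have hWo : IsOpen (nq (muD κ n t) '' U) := (nq (muD κ n t)).isOpenMap U hU
  set w := nq (muD κ n t) with hw
  set Q : ℂ → ℂ := fun ζ => q (w.symm ζ) + t * conj (q (w.symm ζ)) with hQ
  have hQs : ContDiffOn ℝ ∞ Q (w '' U) := by
    have : ContDiffOn ℂ ∞ Q (w '' U) := hhol.contDiffOn hWo
    exact this.restrict_scalars ℝ
  have hc := hCHR U (w '' U) w a (fun z => muD κ n t z * a z) Q hU hWo
    (hA.wd.mono (subset_univ U)) (mapsTo_image _ _) hQs
  have he := hUNW U _ _ _ _ _ _ hU (fun z _ => by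
    show Q (w z) = q z + t * conj (q z)
    simp [hQ]) hc (wd_smoothOn hU hf1)
  have hae : ∀ᵐ z ∂(volume.restrict U), deriv Q (w z) * a z = deriv q z := by
    filter_upwards [he.1, ae_restrict_mem hU.measurableSet] with z hz hzU
    have hdQ : DifferentiableAt ℂ Q (w z) :=
      hhol.differentiableAt (hWo.mem_nhds (mem_image_of_mem _ hzU))
    rw [dz_holo hdQ, dzb_holo hdQ, zero_mul, add_zero, (hf2 z hzU).1] at hz
    exact hz
  -- transport
  have hnull : volume (w '' {z | z ∈ U ∧ ¬ deriv Q (w z) * a z = deriv q z}) = 0 := by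
    rw [hNUL _ hk' _ hbel]
    rw [ae_restrict_iff' hU.measurableSet, ae_iff] at hae
    refine measure_mono_null (fun z hz => ?_) hae
    simp only [mem_setOf_eq, Classical.not_imp] at hz ⊢
    exact hz
  rw [ae_restrict_iff' hWo.measurableSet, ae_iff]
  refine measure_mono_null ?_ hnull
  intro ζ hζ
  simp only [mem_setOf_eq, Classical.not_imp] at hζ
  obtain ⟨⟨z, hzU, rfl⟩, h2⟩ := hζ
  refine ⟨z, ⟨hzU, fun h => h2 ?_⟩, rfl⟩
  have hqz := (hn z hzU).1
  have hnz := (hn z hzU).2.2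
  have haz := hA.ne z
  have hcz : conj (a z) ≠ 0 := (map_ne_zero _).2 haz
  simp only [mD, ← hw, Homeomorph.symm_apply_apply, hnz]
  rw [← h, map_mul]
  have hQz : deriv Q (w z) ≠ 0 := fun h0 => hqz (by rw [← h, h0, zero_mul])
  field_simp

end Pool.Agent.Helper6.QS
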